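import Pool.Agent.MP_fcd29e_an.H31.Spec3
import Pool.Agent.MP_fcd29e_an.H4.EC

/-!
The kernel preserves the Sobolev spaces of real order.
-/

set_option autoImplicit false

open MeasureTheory Complex Set Filter Topology Metric Pool.Agent.MP_fcd29e_an.H81
  Pool.Agent.MP_fcd29e_an.H31
open scoped ContDiff ComplexConjugate ENNReal NNReal FourierTransform SchwartzMap

namespace Pool.Agent.MP_fcd29e_an.H94

variable {N : ℕ}

/-- Convolution with an integrable kernel of compact support preserves `Hs`. -/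
theorem hs_cv (L : Lv2) {s : ℝ} {k g : E N → ℂ} (hk : Integrable k) (hc : HasCompactSupport k)
    (hg : Hs s g) : Hs s (Cv k g) := by
  obtain ⟨hg2, C, hC⟩ := hg
  obtain ⟨-, -, -, -, h5, -⟩ := L.fb N k hk
  obtain ⟨hm, -, hp⟩ := h5 g hg2
  have hk' : Integrable fun x => k (-x) := hk.comp_neg
  have hc' : HasCompactSupport fun x => k (-x) := hc.comp_homeomorph (Homeomorph.neg (E N))
  obtain ⟨-, hb, -, -, -, h6⟩ := L.fb N _ hk'
  set A : ℝ := ∫ y, ‖k (-y)‖ with hA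
  have hA0 : 0 ≤ A := integral_nonneg fun _ => norm_nonneg _
  refine ⟨hm, C * Real.toNNReal (A ^ 2), fun ψ hψ => ?_⟩
  obtain ⟨hT, hF, -⟩ := h6 hc' ψ hψ
  rw [hp ψ hψ]
  refine (hC _ hT).trans ?_
  rw [ENNReal.coe_mul, mul_assoc]
  refine mul_le_mul_right ?_ _
  unfold FN
  rw [← lintegral_const_mul' _ _ ENNReal.coe_ne_top]
  refine lintegral_mono fun ξ => ?_
  change _ ≤ ENNReal.ofReal (A ^ 2) * _
  rw [← ENNReal.ofReal_mul (by positivity)]
  refine ENNReal.ofReal_le_ofReal ?_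
  rw [hF ξ, norm_mul, mul_pow]
  have h1 : ‖𝓕 (fun x => k (-x)) ξ‖ ^ 2 ≤ A ^ 2 := pow_le_pow_left₀ (norm_nonneg _) (hb ξ) 2
  have h2 : 0 ≤ (1 + ‖ξ‖ ^ 2) ^ (-s) := Real.rpow_nonneg (by positivity) _
  calc (1 + ‖ξ‖ ^ 2) ^ (-s) * (‖𝓕 (fun x => k (-x)) ξ‖ ^ 2 * ‖𝓕 ψ ξ‖ ^ 2)
      ≤ (1 + ‖ξ‖ ^ 2) ^ (-s) * (A ^ 2 * ‖𝓕 ψ ξ‖ ^ 2) := by gcongr
    _ = _ := by ring

/-- A cut-off equal to one on a shell. -/
theorem exists_cut {r : ℝ} (hr : 0 < r) {R : ℝ} (hR : 0 < R) :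
    ∃ χ : E N → ℂ, Test (E0 N) χ ∧ ∀ y : E N, r ≤ ‖y‖ → ‖y‖ ≤ R → χ y = 1 := by
  let a : ContDiffBump (0 : E N) := ⟨R, R + 1, hR, by linarith⟩
  let b : ContDiffBump (0 : E N) := ⟨r / 2, r, by positivity, by linarith⟩
  refine ⟨fun y => ((a y * (1 - b y) : ℝ) : ℂ), ⟨?_, ?_, ?_⟩, fun y h1 h2 => ?_⟩
  · exact ofRealCLM.contDiff.comp (a.contDiff.mul (contDiff_const.sub b.contDiff))
  · exact (a.hasCompactSupport.mul_right (f' := fun y => 1 - b y)).comp_left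
      (g := fun t : ℝ => (t : ℂ)) (by simp)
  · rw [subset_compl_singleton_iff, notMem_tsupport_iff_eventuallyEq]
    filter_upwards [b.eventuallyEq_one] with y hy
    simp [hy]
  · have ha : a y = 1 := a.one_of_mem_closedBall (by simpa using h2)
    have hb : b y = 0 := b.zero_of_le_dist (by simpa using h1)
    simp [ha, hb]

/-- The near part. -/
theorem near_hs (L : Lv2) {s : ℝ} (hs : 0 ≤ s) {r : ℝ} (hr : 0 < r) {k f χ : E N → ℂ}
    (hk : Integrable k) (h0 : ∀ y, r / 2 ≤ ‖y‖ → k y = 0) (hf : SobH s f) (hχ : Test (E0 N) χ)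
    (h1 : ∀ x, χ x ≠ 0 → r ≤ ‖x‖) : Hs s fun x => χ x * Cv k f x := by
  obtain ⟨R, hR⟩ := hχ.2.1.isCompact.isBounded.exists_norm_le
  obtain ⟨χ₁, hχ₁, hone⟩ := exists_cut (N := N) (half_pos hr) (R := |R| + r) (by positivity)
  have hc : HasCompactSupport k :=
    HasCompactSupport.intro (isCompact_closedBall (0 : E N) (r / 2)) fun y hy =>
      h0 y (le_of_lt (by simpa using hy))
  have h2 := hs_cv L hk hc (hf χ₁ hχ₁)
  have h3 := ((L.sbs N s hs).2.2.2.2.1 _ h2).1 χ hχ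
  refine ((L.sbs N s hs).2.2.2.2.1 _ h3).2.1 _ (Eventually.of_forall fun x => ?_)
  by_cases hx : χ x = 0
  · simp [hx]
  congr 1
  refine integral_congr_ae (Eventually.of_forall fun y => ?_)
  by_cases hy : r / 2 ≤ ‖x - y‖
  · simp [h0 _ hy]
  · have h4 := h1 x hx
    have h5 := (hR x (subset_tsupport _ hx)).trans (le_abs_self R)
    have h6 := norm_sub_norm_le x y
    have h7 := norm_sub_norm_le y x
    rw [norm_sub_rev] at h7
    simp only [hone y (by linarith [not_le.1 hy]) (by linarith [not_le.1 hy]), one_mul]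

theorem ecs (L : Lv2) : StmtECs := by
  intro N s hs j f hf hD χ hχ
  have hN : 1 ≤ N := j.pos
  obtain ⟨r, hr, hball⟩ : ∃ r > 0, ball (0 : E N) r ⊆ (tsupport χ)ᶜ :=
    Metric.isOpen_iff.1 (isClosed_tsupport χ).isOpen_compl 0 fun h => hχ.2.2 h rfl
  have h1 : ∀ x, χ x ≠ 0 → r ≤ ‖x‖ := fun x hx => by
    by_contra h
    exact hball (by simpa using h) (subset_tsupport _ hx)
  have hρ : 0 < r / 4 := by positivity
  obtain ⟨-, -, -, -, hSym, hr'⟩ := (L.bm1 N hN).2.1 j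
  obtain ⟨-, hki, hy⟩ := hr' _ hρ
  have hG : H4.Gd (r / 4) (Phi j (r / 4)) :=
    ⟨2 * N - 1, Phi j 1, (((r / 4) ^ (2 * N - 1) : ℝ) : ℂ)⁻¹, le_rfl, hSym,
      funext fun y => by rw [(hy y).1, div_eq_inv_mul]⟩
  have hA := near_hs L hs hr hki (fun y h => ((hy y).2.1 (by linarith)).2) hf hχ h1
  have hB := (L.sbs N s hs).2.2.1 (fun x => ∫ y, Phi j (r / 4) (x - y) * f y)
    (contDiff_infty.2 fun n => H4.far_smooth L.toLv0 hN hρ hD n _ hG).contDiffOn χ hχ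
  have hS := ((L.sbs N s hs).2.2.2.2.1 _ hA).2.2 _ hB
  refine ((L.sbs N s hs).2.2.2.2.1 _ hS).2.1 _ ?_
  filter_upwards [((L.bm2 N hN).2.2 f hD j).1] with x hx
  have h2 := H4.far_int L.toLv0 hN hρ hG hD x
  rw [← mul_add]
  congr 1
  simp only [Cv, kk, sub_mul]
  rw [integral_sub hx h2, sub_add_cancel]
  rfl

end Pool.Agent.MP_fcd29e_an.H94
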