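import Pool.Agent.MP_fcd29e_an.H11.CS

/-! Comparison at the two ends of the neck at infinity. -/

set_option autoImplicit false

open Complex Set Filter Topology Pool.Agent.MP_fcd29e_an.H11
open scoped ComplexConjugate

namespace Pool.Agent.MP_fcd29e_an.H94

theorem ni_coord {r : ℕ} (ξ : Fin r → ℂ) (a : ℝ) (ha : 0 < a) (h : nsq ξ = a ^ 2) (k : Fin r) :
    ‖ξ k‖ ≤ a := by
  have h1 : ‖ξ k‖ ^ 2 ≤ nsq ξ :=
    Finset.single_le_sum (f := fun k => ‖ξ k‖ ^ 2) (fun _ _ => by positivity) (Finset.mem_univ k)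
  rw [h] at h1
  exact (pow_le_pow_iff_left₀ (norm_nonneg _) ha.le two_ne_zero).1 h1

/-- The Euclidean norm of the projection. -/
theorem ni_norm (hGR : SGR) {r : ℕ} (ξ : Fin r → ℂ) (a : ℝ) (ha : 0 < a) (h : nsq ξ = a ^ 2)
    (s : ℂ) (h1 : 1 ≤ ‖s‖) (h2 : ‖s‖ ≤ 2) (M : EV (Fin r)) (ε : ℝ) (hM : ‖M - 1‖ ≤ ε)
    (hε : 2 * ε ≤ 1) : ∃ u : ℝ, |u - 1| ≤ 24 * r * ε ∧
      nsq (M (dg s ((a : ℂ), fun k => conj (ξ k), ξ))).2.2 = a ^ 2 * u / ‖s‖ ^ 2 := by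
  have hε0 : 0 ≤ ε := (norm_nonneg _).trans hM
  have hs : 0 < ‖s‖ := by linarith
  set y : V (Fin r) := dg s ((a : ℂ), fun k => conj (ξ k), ξ) with hy
  have hy' : y = ((a : ℂ), s • (fun k => conj (ξ k)), s⁻¹ • ξ) :=
    (hGR.blk (Fin r) _ s).2.2.2
  have hk : ∀ k, ‖y.2.2 k‖ ≤ a := fun k => by
    rw [hy']
    simp only [Pi.smul_apply, smul_eq_mul, norm_mul, norm_inv]
    have := ni_coord ξ a ha h k
    have h3 : ‖s‖⁻¹ ≤ 1 := inv_le_one_of_one_le₀ h1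
    nlinarith [norm_nonneg (ξ k), inv_nonneg.2 hs.le]
  have hyn : ‖y‖ ≤ 2 * a := by
    refine norm_prod_le_iff.2 ⟨?_, norm_prod_le_iff.2 ⟨?_, ?_⟩⟩
    · rw [hy']
      simp only [Complex.norm_real, Real.norm_eq_abs, abs_of_pos ha]
      linarith
    · refine (pi_norm_le_iff_of_nonneg (by positivity)).2 fun k => ?_
      rw [hy']
      simp only [Pi.smul_apply, smul_eq_mul, norm_mul, RCLike.norm_conj]
      have := ni_coord ξ a ha h k
      nlinarith [norm_nonneg (ξ k)]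
    · refine (pi_norm_le_iff_of_nonneg (by positivity)).2 fun k => ?_
      have := hk k
      linarith
  have he : ‖(M - 1) y‖ ≤ ε * (2 * a) :=
    ((M - 1).le_opNorm y).trans (mul_le_mul hM hyn (norm_nonneg _) hε0)
  have hek : ∀ k, ‖(M y).2.2 k - y.2.2 k‖ ≤ ε * (2 * a) := fun k => by
    have e1 : (M y).2.2 k - y.2.2 k = ((M - 1) y).2.2 k := by simp
    rw [e1]
    exact (norm_le_pi_norm _ k).trans ((norm_snd_le _).trans ((norm_snd_le _).trans he))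
  have hd : ∀ k, |‖(M y).2.2 k‖ ^ 2 - ‖y.2.2 k‖ ^ 2| ≤ 6 * ε * a ^ 2 := fun k => by
    have h3 := (abs_norm_sub_norm_le ((M y).2.2 k) (y.2.2 k)).trans (hek k)
    have h4 := hk k
    have h5 := abs_le.1 h3
    have h6 : ε * (2 * a) ≤ a := by nlinarith
    have e1 : ‖(M y).2.2 k‖ ^ 2 - ‖y.2.2 k‖ ^ 2 =
        (‖(M y).2.2 k‖ - ‖y.2.2 k‖) * (‖(M y).2.2 k‖ + ‖y.2.2 k‖) := by ring
    rw [e1, abs_mul, abs_of_nonneg (a := ‖(M y).2.2 k‖ + ‖y.2.2 k‖) (by positivity)]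
    calc |‖(M y).2.2 k‖ - ‖y.2.2 k‖| * (‖(M y).2.2 k‖ + ‖y.2.2 k‖)
        ≤ ε * (2 * a) * (3 * a) :=
          mul_le_mul h3 (by linarith [h5.2]) (by positivity) (by positivity)
      _ = 6 * ε * a ^ 2 := by ring
  have hy2 : nsq y.2.2 = a ^ 2 / ‖s‖ ^ 2 := by
    rw [hy', ← h]
    simp only [nsq, Pi.smul_apply, smul_eq_mul, norm_mul, norm_inv, mul_pow, Finset.sum_div]
    exact Finset.sum_congr rfl fun k _ => by field_simp
  have hsum : |nsq (M y).2.2 - a ^ 2 / ‖s‖ ^ 2| ≤ r * (6 * ε * a ^ 2) := by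
    rw [← hy2]
    unfold nsq
    rw [← Finset.sum_sub_distrib]
    refine (Finset.abs_sum_le_sum_abs _ _).trans ((Finset.sum_le_sum fun k _ => hd k).trans ?_)
    simp
  refine ⟨nsq (M y).2.2 * ‖s‖ ^ 2 / a ^ 2, ?_, by field_simp⟩
  have e2 : nsq (M y).2.2 * ‖s‖ ^ 2 / a ^ 2 - 1 =
      (nsq (M y).2.2 - a ^ 2 / ‖s‖ ^ 2) * (‖s‖ ^ 2 / a ^ 2) := by field_simp
  rw [e2, abs_mul, abs_of_nonneg (a := ‖s‖ ^ 2 / a ^ 2) (by positivity)]
  have h7 : ‖s‖ ^ 2 ≤ 4 := by nlinarith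
  calc |nsq (M y).2.2 - a ^ 2 / ‖s‖ ^ 2| * (‖s‖ ^ 2 / a ^ 2)
      ≤ r * (6 * ε * a ^ 2) * (4 / a ^ 2) :=
        mul_le_mul hsum (by gcongr) (by positivity) (by positivity)
    _ = 24 * r * ε := by field_simp; ring

theorem ni_exp_le (w : ℝ) (hw : -(1 / 2) ≤ w) : Real.exp (w - 2 * w ^ 2) ≤ 1 + w := by
  have h0 : 0 < 1 + w := by linarith
  have h1 := Real.add_one_le_exp (-(w / (1 + w)))
  have h2 : -(w / (1 + w)) + 1 = (1 + w)⁻¹ := by field_simp; ring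
  rw [h2, Real.exp_neg] at h1
  have h3 : Real.exp (w / (1 + w)) ≤ 1 + w := (inv_le_inv₀ h0 (Real.exp_pos _)).1 h1
  refine le_trans (Real.exp_le_exp.2 ?_) h3
  rw [le_div_iff₀ h0]
  nlinarith [sq_nonneg w]

theorem ni_pow (u d : ℝ) (hu : |u - 1| ≤ d) (hd : d ≤ 1 / 2) :
    0 < u ∧ Real.exp (-(10 * d)) ≤ (u ^ 10)⁻¹ ∧ (u ^ 10)⁻¹ ≤ Real.exp (20 * d) := by
  obtain ⟨h1, h2⟩ := abs_le.1 hu
  have h0 : 0 < u := by linarith
  have hd0 : 0 ≤ d := (abs_nonneg _).trans hu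
  refine ⟨h0, ?_, ?_⟩
  · rw [Real.exp_neg]
    refine inv_anti₀ (by positivity) ?_
    have h3 : u ≤ Real.exp d := by linarith [Real.add_one_le_exp d]
    calc u ^ 10 ≤ Real.exp d ^ 10 := by gcongr
      _ = Real.exp (10 * d) := by rw [← Real.exp_nat_mul]; norm_num
  · have h3 : Real.exp (-(2 * d)) ≤ u := by
      have h4 := ni_exp_le (-d) (by linarith)
      refine le_trans (Real.exp_le_exp.2 ?_) (h4.trans (by linarith))
      nlinarith
    have h5 : Real.exp (-(20 * d)) ≤ u ^ 10 :=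
      calc Real.exp (-(20 * d)) = Real.exp (-(2 * d)) ^ 10 := by
            rw [← Real.exp_nat_mul]; congr 1; push_cast; ring
        _ ≤ u ^ 10 := by gcongr
    rw [Real.exp_neg] at h5
    exact inv_le_of_inv_le₀ (Real.exp_pos _) h5

theorem ni_tp {m : ℕ} (j : Fin m) : ‖tp j‖ ≤ m := by
  simp only [tp, norm_mul, Complex.norm_I, one_mul, Complex.norm_natCast]
  exact_mod_cast j.2.le

theorem ni_one (A lam d w n m : ℝ) (u : ℝ) (hA : 0 < A) (hn : 0 < n) (hlam : 0 ≤ lam)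
    (hu0 : 0 < u) (hu : (u ^ 10)⁻¹ ≤ Real.exp (20 * d))
    (h : 1 / (2 * n) + 80 * m * lam + 20 * d + w < 0) :
    (1 + 1 / (2 * n)) * (A * Real.exp (80 * m * lam) * (u ^ 10)⁻¹ * (1 + w)) <
      A * (2 - Real.exp (-(2 * lam))) := by
  have h1 : 1 + 1 / (2 * n) ≤ Real.exp (1 / (2 * n)) := by
    linarith [Real.add_one_le_exp (1 / (2 * n))]
  have h2 : 1 + w ≤ Real.exp w := by linarith [Real.add_one_le_exp w]
  have h3 : Real.exp (-(2 * lam)) ≤ 1 := Real.exp_le_one_iff.2 (by linarith)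
  have h4 : Real.exp (1 / (2 * n) + 80 * m * lam + 20 * d + w) < 1 := Real.exp_lt_one_iff.2 h
  calc (1 + 1 / (2 * n)) * (A * Real.exp (80 * m * lam) * (u ^ 10)⁻¹ * (1 + w))
      ≤ (1 + 1 / (2 * n)) * (A * Real.exp (80 * m * lam) * (u ^ 10)⁻¹ * Real.exp w) := by gcongr
    _ ≤ Real.exp (1 / (2 * n)) * (A * Real.exp (80 * m * lam) * Real.exp (20 * d) *
        Real.exp w) := by gcongr
    _ = A * Real.exp (1 / (2 * n) + 80 * m * lam + 20 * d + w) := by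
        simp only [Real.exp_add]; ring
    _ < A * 1 := by gcongr
    _ ≤ A * (2 - Real.exp (-(2 * lam))) := by gcongr; linarith

theorem ni_two (A lam d w w₀ n m : ℝ) (u : ℝ) (hA : 0 < A) (hn : 1 ≤ n)
    (hu : Real.exp (-(10 * d)) ≤ (u ^ 10)⁻¹) (hw : w₀ ≤ w) (hw₀ : -(1 / 2) ≤ w₀)
    (h : 2 * lam < -(1 / n) + 80 * m * lam - 10 * d + (w₀ - 2 * w₀ ^ 2)) :
    A * (2 - Real.exp (-(2 * lam))) <
      (1 - 1 / (2 * n)) * (A * Real.exp (80 * m * lam) * (u ^ 10)⁻¹ * (1 + w)) := by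
  have hn0 : 0 < n := by linarith
  have hq : 1 / (2 * n) ≤ 1 / 2 := by gcongr; linarith
  have hq0 : 0 < 1 / (2 * n) := by positivity
  have h1 : Real.exp (-(1 / n)) ≤ 1 - 1 / (2 * n) := by
    have h4 := ni_exp_le (-(1 / (2 * n))) (by linarith)
    refine le_trans (Real.exp_le_exp.2 ?_) (h4.trans (by linarith))
    have e : 1 / n = 2 * (1 / (2 * n)) := by field_simp
    rw [e]
    nlinarith
  have h2 : Real.exp (w₀ - 2 * w₀ ^ 2) ≤ 1 + w := (ni_exp_le w₀ hw₀).trans (by linarith)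
  have h3 : 2 - Real.exp (-(2 * lam)) ≤ Real.exp (2 * lam) := by
    linarith [Real.add_one_le_exp (-(2 * lam)), Real.add_one_le_exp (2 * lam)]
  have hu0 : 0 ≤ (u ^ 10)⁻¹ := by positivity
  calc A * (2 - Real.exp (-(2 * lam))) ≤ A * Real.exp (2 * lam) := by gcongr
    _ < A * Real.exp (-(1 / n) + 80 * m * lam + -(10 * d) + (w₀ - 2 * w₀ ^ 2)) := by
        gcongr; linarith
    _ = Real.exp (-(1 / n)) * (A * Real.exp (80 * m * lam) * Real.exp (-(10 * d)) *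
        Real.exp (w₀ - 2 * w₀ ^ 2)) := by simp only [Real.exp_add]; ring
    _ ≤ (1 - 1 / (2 * n)) * (A * Real.exp (80 * m * lam) * (u ^ 10)⁻¹ * (1 + w)) := by
        gcongr; linarith

theorem ni_arith (m L Q K D n Z : ℝ) (hm : 512 ≤ m) (hL : 0 ≤ L) (hn : 1 ≤ n)
    (hZ : 2 * Z ^ 2 + 1 ≤ n) (h : Q + K + 10 * D + 3 < L)
    (e : Z = L * (m / 64 - 80 * m - 2) - Q - 1 - K) : -(1 / 2) ≤ Z / n ∧
    2 * (L / n) < -(1 / n) + 80 * m * (L / n) - 10 * (D / n) + (Z / n - 2 * (Z / n) ^ 2) := by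
  have hn0 : 0 < n := by linarith
  constructor
  · rw [le_div_iff₀ hn0]
    nlinarith [sq_nonneg (Z + 1)]
  · have h7 : 2 * (Z / n) ^ 2 ≤ 1 / n := by
      rw [div_pow, ← mul_div_assoc, div_le_div_iff₀ (by positivity) hn0]
      nlinarith
    have h8 : 2 * (L / n) < -(1 / n) + 80 * m * (L / n) - 10 * (D / n) + (Z / n - 1 / n) := by
      have e' : -(1 / n) + 80 * m * (L / n) - 10 * (D / n) + (Z / n - 1 / n) - 2 * (L / n) =
          (-1 + 80 * m * L - 10 * D + Z - 1 - 2 * L) / n := by field_simp; ring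
      rw [← sub_pos, e']
      refine div_pos ?_ hn0
      have h9 : L * 4 ≤ L * (m / 64 - 4) := mul_le_mul_of_nonneg_left (by linarith) hL
      rw [e]
      nlinarith
    linarith

theorem sni (hGR : SGR) (hPS : SPS) (_hHB : SHB) : SNI := by
  intro r m l η Cs C hm
  obtain ⟨P, hP0, hP⟩ := hPS r l η Cs
  have hm' : (512 : ℝ) ≤ m := by exact_mod_cast hm
  obtain ⟨D, hD⟩ : ∃ D : ℝ, D = 24 * r * |C| := ⟨_, rfl⟩
  have hD0 : 0 ≤ D := by rw [hD]; positivity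
  refine ⟨80 * m * (m + 3) + 20 * D + m * (P * (2 * m + 3)) + 1, fun K hK => ?_⟩
  have hK0 : 0 ≤ K := le_trans (by positivity) hK
  obtain ⟨L₀, hL₀⟩ : ∃ L₀ : ℝ, L₀ = m * P + K + 10 * D + 3 + 2 * m := ⟨_, rfl⟩
  have hmP : 0 ≤ m * P := by positivity
  have hL₀' : 2 * m + 3 ≤ L₀ := by linarith
  have hT : L₀ + 1 ≤ Real.exp L₀ := Real.add_one_le_exp L₀
  obtain ⟨Z₁, hZ₁⟩ : ∃ Z₁ : ℝ, Z₁ = L₀ * (m / 64 - 80 * m - 2) - m * P - 1 - K := ⟨_, rfl⟩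
  refine ⟨Real.exp L₀, by linarith, ?_⟩
  have hev : ∀ᶠ n : ℕ in atTop,
      8 * m * L₀ + 2 * |C| + 2 * D + (2 * Z₁ ^ 2 + 1) ≤ (n : ℝ) :=
    tendsto_natCast_atTop_atTop.eventually_ge_atTop _
  filter_upwards [hev] with n hn c S om F hR hF hsl x hx τ
  have hL0 : 0 ≤ L₀ := by linarith
  have hb1 : 0 ≤ 8 * m * L₀ := by positivity
  have hb2 : 0 ≤ |C| := abs_nonneg C
  have hb3 : 0 ≤ Z₁ ^ 2 := sq_nonneg _
  have hn1 : (1 : ℝ) ≤ n := by linarith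
  have hn0 : (0 : ℝ) < n := by linarith
  have hn2 : 2 * Z₁ ^ 2 + 1 ≤ n := by linarith
  obtain ⟨a, ξ, ha, hξ, rfl⟩ := (hGR.mem (Fin r) x).1 hx
  have hψ : ∀ j p, |psi l η Cs c S (om j) p| ≤ P := fun j => (hP c S (om j) (hR.ax j) hR.hc).1
  have key : (m : ℝ) + 2 ≤ ‖τ ^ n‖ → ‖τ ^ n‖ ≤ Real.exp L₀ → ∃ (u : ℝ) (p : Fin r → ℂ),
      p ≠ 0 ∧ 0 < u ∧ Real.exp (-(10 * (D / n))) ≤ (u ^ 10)⁻¹ ∧
      (u ^ 10)⁻¹ ≤ Real.exp (20 * (D / n)) ∧
      phh n l η Cs K c S om (τ ^ n, (F (τ ^ n) (dg (τ ^ (4 * m))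
        ((a : ℂ), fun k => conj (ξ k), ξ))).2.2) =
        (a ^ 20)⁻¹ * Real.exp (80 * m * (Real.log ‖τ ^ n‖ / n)) * (u ^ 10)⁻¹ *
          (1 + (∑ j, psi l η Cs c S (om j) p * Real.log ‖τ ^ n - tp j‖ -
            Real.log (1 + ‖τ ^ n‖ ^ 2) - K) / n) ∧
      phi0 (τ⁻¹, (((a : ℂ), fun k => conj (ξ k), ξ) : V (Fin r))) =
        (a ^ 20)⁻¹ * (2 - Real.exp (-(2 * (Real.log ‖τ ^ n‖ / n)))) := by
    intro h1 h2
    have ht0 : 0 < ‖τ ^ n‖ := by linarith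
    have hτ : 0 < ‖τ‖ := by
      rcases (norm_nonneg τ).eq_or_lt with h | h
      · have hn' : n ≠ 0 := by exact_mod_cast hn0.ne'
        rw [norm_pow, ← h, zero_pow hn'] at ht0
        exact absurd ht0 (lt_irrefl _)
      · exact h
    set lm : ℝ := Real.log ‖τ ^ n‖ / n with hlm
    have hlog : Real.log ‖τ‖ = lm := by
      rw [hlm, norm_pow, Real.log_pow]; field_simp
    have hτe : ‖τ‖ = Real.exp lm := by rw [← hlog, Real.exp_log hτ]
    have hL1 : 0 ≤ Real.log ‖τ ^ n‖ := Real.log_nonneg (by linarith)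
    have hL2 : Real.log ‖τ ^ n‖ ≤ L₀ := (Real.log_le_iff_le_exp ht0).2 h2
    have hlm0 : 0 ≤ lm := by positivity
    have hs : ‖τ ^ (4 * m)‖ = Real.exp (4 * m * lm) := by
      rw [norm_pow, hτe, ← Real.exp_nat_mul]; push_cast; rfl
    have hs1 : 1 ≤ ‖τ ^ (4 * m)‖ := by rw [hs]; exact Real.one_le_exp (by positivity)
    have hs2 : ‖τ ^ (4 * m)‖ ≤ 2 := by
      have h3 : 4 * m * lm ≤ 1 / 2 := by
        rw [hlm, ← mul_div_assoc, div_le_iff₀ hn0]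
        have : 4 * m * Real.log ‖τ ^ n‖ ≤ 4 * m * L₀ := by gcongr
        linarith
      have h4 := Real.add_one_le_exp (-(1 / 2 : ℝ))
      rw [Real.exp_neg] at h4
      have h5 : Real.exp (1 / 2 : ℝ) ≤ 2 := by
        have := (le_inv_comm₀ (by norm_num) (Real.exp_pos _)).1 h4
        norm_num at this ⊢
        exact this
      rw [hs]
      exact (Real.exp_le_exp.2 h3).trans h5
    have hM : ‖F (τ ^ n) - 1‖ ≤ |C| / n := (hF _).trans (by gcongr; exact le_abs_self C)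
    have hε : 2 * (|C| / n) ≤ 1 := by
      rw [← mul_div_assoc, div_le_one hn0]; linarith
    obtain ⟨u, hu, hnsq⟩ := ni_norm hGR ξ a ha hξ _ hs1 hs2 _ _ hM hε
    have hu' : |u - 1| ≤ D / n := by rw [hD, mul_div_assoc]; exact hu
    have hdn : D / n ≤ 1 / 2 := by rw [div_le_iff₀ hn0]; linarith
    obtain ⟨hu0, hu1, hu2⟩ := ni_pow u _ hu' hdn
    refine ⟨u, (F (τ ^ n) (dg (τ ^ (4 * m)) ((a : ℂ), fun k => conj (ξ k), ξ))).2.2,
      fun h0 => ?_, hu0, hu1, hu2, ?_, ?_⟩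
    · rw [h0] at hnsq
      have h6 : 0 < a ^ 2 * u / ‖τ ^ (4 * m)‖ ^ 2 := by positivity
      rw [← hnsq] at h6
      simp [nsq] at h6
    · simp only [phh]
      congr 1
      have e : Real.exp (80 * m * lm) = Real.exp (4 * m * lm) ^ 20 := by
        rw [← Real.exp_nat_mul]; congr 1; push_cast; ring
      rw [hnsq, hs, e]
      have := Real.exp_pos (4 * m * lm)
      field_simp
    · simp only [phi0, Complex.ofReal_re, norm_inv]
      rw [hτe, ← Real.exp_neg, ← Real.exp_nat_mul]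
      congr 3
      push_cast
      ring
  have hA : 0 < (a ^ 20)⁻¹ := by positivity
  constructor
  · intro h1 h2
    obtain ⟨u, p, -, hu0, -, hu2, e1, e2⟩ := key h1 (by linarith)
    rw [e1, e2]
    have hL1 : 0 ≤ Real.log ‖τ ^ n‖ := Real.log_nonneg (by linarith)
    have hL2 : Real.log ‖τ ^ n‖ ≤ m + 3 := by
      linarith [Real.log_le_sub_one_of_pos (show 0 < ‖τ ^ n‖ by linarith)]
    refine ni_one _ _ _ _ _ _ u hA hn0 (by positivity) hu0 hu2 ?_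
    have h3 : ∀ j : Fin m, psi l η Cs c S (om j) p * Real.log ‖τ ^ n - tp j‖ ≤
        P * (2 * m + 3) := fun j => by
      have h4 := ni_tp j
      have h5 : ‖τ ^ n‖ - ‖tp j‖ ≤ ‖τ ^ n - tp j‖ := norm_sub_norm_le _ _
      have h6 : ‖τ ^ n - tp j‖ ≤ ‖τ ^ n‖ + ‖tp j‖ := norm_sub_le _ _
      have h7 : 0 ≤ Real.log ‖τ ^ n - tp j‖ := Real.log_nonneg (by linarith)
      have h8 : Real.log ‖τ ^ n - tp j‖ ≤ 2 * m + 3 := by
        linarith [Real.log_le_sub_one_of_pos (show 0 < ‖τ ^ n - tp j‖ by linarith)]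
      exact mul_le_mul (le_of_abs_le (hψ j p)) h8 h7 hP0
    have h4 : ∑ j, psi l η Cs c S (om j) p * Real.log ‖τ ^ n - tp j‖ ≤ m * (P * (2 * m + 3)) :=
      (Finset.sum_le_sum fun j _ => h3 j).trans (by simp)
    have h5 : 0 ≤ Real.log (1 + ‖τ ^ n‖ ^ 2) := Real.log_nonneg (le_add_of_nonneg_right (sq_nonneg _))
    have h6 : 80 * m * Real.log ‖τ ^ n‖ ≤ 80 * m * (m + 3) := by gcongr
    have e : ∀ Z L : ℝ, 1 / (2 * n) + 80 * m * (L / n) + 20 * (D / n) + Z / n =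
        (1 / 2 + 80 * m * L + 20 * D + Z) / n := fun Z L => by field_simp
    rw [e]
    refine div_neg_of_neg_of_pos ?_ hn0
    linarith
  · intro h1
    obtain ⟨u, p, hp, -, hu1, -, e1, e2⟩ := key (by linarith) h1.le
    rw [e1, e2]
    have hL : Real.log ‖τ ^ n‖ = L₀ := by rw [h1, Real.log_exp]
    have ht : 2 * m + 4 ≤ ‖τ ^ n‖ := by linarith
    have h3 : ∀ j : Fin m, psi l η Cs c S (om j) p * L₀ - P ≤
        psi l η Cs c S (om j) p * Real.log ‖τ ^ n - tp j‖ := fun j => by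
      have h4 := ni_tp j
      have h5 : ‖τ ^ n‖ - ‖tp j‖ ≤ ‖τ ^ n - tp j‖ := norm_sub_norm_le _ _
      have h6 : ‖τ ^ n - tp j‖ ≤ ‖τ ^ n‖ + ‖tp j‖ := norm_sub_le _ _
      have ht0 : 0 < ‖τ ^ n‖ := by linarith
      have hj0 : 0 < ‖τ ^ n - tp j‖ := by linarith
      have h7 := Real.log_le_sub_one_of_pos (div_pos hj0 ht0)
      have h8 := Real.log_le_sub_one_of_pos (div_pos ht0 hj0)
      rw [Real.log_div hj0.ne' ht0.ne', hL] at h7
      rw [Real.log_div ht0.ne' hj0.ne', hL] at h8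
      have h9 : ‖τ ^ n - tp j‖ / ‖τ ^ n‖ ≤ 2 := by rw [div_le_iff₀ ht0]; linarith
      have h10 : ‖τ ^ n‖ / ‖τ ^ n - tp j‖ ≤ 2 := by rw [div_le_iff₀ hj0]; linarith
      have h11 : |Real.log ‖τ ^ n - tp j‖ - L₀| ≤ 1 := abs_le.2 ⟨by linarith, by linarith⟩
      have h12 : |psi l η Cs c S (om j) p * (Real.log ‖τ ^ n - tp j‖ - L₀)| ≤ P * 1 := by
        rw [abs_mul]
        exact mul_le_mul (hψ j p) h11 (abs_nonneg _) hP0
      linarith [(abs_le.1 h12).1]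
    have h4 : (∑ j, psi l η Cs c S (om j) p) * L₀ - m * P ≤
        ∑ j, psi l η Cs c S (om j) p * Real.log ‖τ ^ n - tp j‖ := by
      refine le_trans (le_of_eq ?_) (Finset.sum_le_sum fun j _ => h3 j)
      rw [Finset.sum_sub_distrib, Finset.sum_mul]
      simp
    have h5 : Real.log (1 + ‖τ ^ n‖ ^ 2) ≤ 1 + 2 * L₀ := by
      rw [Real.log_le_iff_le_exp (by positivity), Real.exp_add, h1]
      have e : Real.exp (2 * L₀) = Real.exp L₀ ^ 2 := by rw [← Real.exp_nat_mul]; norm_num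
      have h6 : 2 ≤ Real.exp 1 := by linarith only [Real.add_one_le_exp (1 : ℝ)]
      have h7 : 1 ≤ Real.exp L₀ ^ 2 := one_le_pow₀ (Real.one_le_exp hL0)
      have h8 := mul_le_mul_of_nonneg_right h6 (sq_nonneg (Real.exp L₀))
      rw [e]
      linarith only [h7, h8]
    have h6 : (m / 64 - 80 * m) * L₀ ≤ (∑ j, psi l η Cs c S (om j) p) * L₀ :=
      mul_le_mul_of_nonneg_right (by linarith [hsl p hp]) hL0
    rw [hL]
    refine ni_two _ _ _ _ (Z₁ / n) _ _ u hA hn1 hu1 ?_ ?_ ?_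
    · refine div_le_div_of_nonneg_right ?_ hn0.le
      rw [hZ₁]
      linarith
    · exact (ni_arith m L₀ (m * P) K D n Z₁ hm' hL0 hn1 hn2 (by linarith) hZ₁).1
    · exact (ni_arith m L₀ (m * P) K D n Z₁ hm' hL0 hn1 hn2 (by linarith) hZ₁).2

end Pool.Agent.MP_fcd29e_an.H94
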