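import Pool.Agent.MP_fcd29e_an.H81.Spec2

/-!
Algebra of the curvature form on alternating matrices.
-/

set_option autoImplicit false

open Pool.Agent.MP_fcd29e_an.H81 MeasureTheory Complex Set Filter Topology Metric
open scoped ContDiff ComplexConjugate ENNReal NNReal

namespace Pool.Agent.MP_fcd29e_an.H94

noncomputable section

variable {N : ℕ}

/-- The sesquilinear form of a matrix on the diagonal. -/
def hq (A : Fin N → Fin N → ℂ) (L : Fin N → ℂ) : ℂ := ∑ j, ∑ k, A j k * L j * conj (L k)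

/-- The curvature form of a matrix. -/
def qq (A x : Fin N → Fin N → ℂ) : ℝ :=
  (∑ i, A i i).re * ∑ j, ∑ k, ‖x j k‖ ^ 2 - 2 * ∑ k, (hq A fun i => conj (x i k)).re

theorem hess_eq (f : E N → ℂ) (z : E N) (L : Fin N → ℂ) :
    hess f z L = hq (fun j k => dz j (dzb k f) z) L := rfl

theorem QQ_eq (φ : E N → ℝ) (z : E N) (x : Fin N → Fin N → ℂ) :
    QQ φ z x = qq (fun j k => dz j (dzb k (cx φ)) z) x := rfl

theorem mc (w : ℂ) : w * conj w = ((‖w‖ ^ 2 : ℝ) : ℂ) := by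
  rw [Complex.mul_conj, Complex.normSq_eq_norm_sq]

theorem hq_lin (A B : Fin N → Fin N → ℂ) (s t : ℂ) (L : Fin N → ℂ) :
    hq (fun j k => s * A j k + t * B j k) L = s * hq A L + t * hq B L := by
  simp only [hq, Finset.mul_sum, ← Finset.sum_add_distrib]
  exact Finset.sum_congr rfl fun j _ => Finset.sum_congr rfl fun k _ => by ring

theorem hq_sum {ι : Type} (s : Finset ι) (A : ι → Fin N → Fin N → ℂ) (L : Fin N → ℂ) :
    hq (fun j k => ∑ i ∈ s, A i j k) L = ∑ i ∈ s, hq (A i) L := by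
  simp only [hq, Finset.sum_mul]
  rw [Finset.sum_comm (s := s)]
  exact Finset.sum_congr rfl fun j _ => Finset.sum_comm

theorem hq_one (L : Fin N → ℂ) :
    hq (fun j k => if j = k then 1 else 0) L = ((∑ j, ‖L j‖ ^ 2 : ℝ) : ℂ) := by
  simp only [hq, ite_mul, one_mul, zero_mul, Finset.sum_ite_eq, Finset.mem_univ, if_true, mc,
    ofReal_sum]

theorem hq_rank (v L : Fin N → ℂ) :
    hq (fun j k => v j * conj (v k)) L = ((‖∑ j, v j * L j‖ ^ 2 : ℝ) : ℂ) := by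
  rw [← mc, map_sum, Finset.sum_mul_sum]
  exact Finset.sum_congr rfl fun j _ => Finset.sum_congr rfl fun k _ => by
    rw [map_mul]; ring

theorem qq_lin (A B : Fin N → Fin N → ℂ) (s t : ℝ) (x : Fin N → Fin N → ℂ) :
    qq (fun j k => s * A j k + t * B j k) x = s * qq A x + t * qq B x := by
  simp only [qq, hq_lin, Finset.sum_add_distrib, ← Finset.mul_sum, add_re, re_ofReal_mul]
  ring

theorem qq_sum {ι : Type} (s : Finset ι) (A : ι → Fin N → Fin N → ℂ) (x : Fin N → Fin N → ℂ) :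
    qq (fun j k => ∑ i ∈ s, A i j k) x = ∑ i ∈ s, qq (A i) x := by
  simp only [qq, hq_sum, Finset.sum_sub_distrib, re_sum, ← Finset.mul_sum, ← Finset.sum_mul]
  rw [Finset.sum_comm (s := s), Finset.sum_comm (s := s)]

theorem qq_one (x : Fin N → Fin N → ℂ) :
    qq (fun j k => if j = k then 1 else 0) x = ((N : ℝ) - 2) * ∑ j, ∑ k, ‖x j k‖ ^ 2 := by
  simp only [qq, hq_one, ofReal_re, if_true, RCLike.norm_conj, Finset.sum_const, Finset.card_univ,
    Fintype.card_fin, nsmul_eq_mul, mul_one, natCast_re]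
  rw [Finset.sum_comm (f := fun k j => ‖x j k‖ ^ 2)]
  ring

theorem qq_rank (v : Fin N → ℂ) (x : Fin N → Fin N → ℂ) :
    qq (fun j k => v j * conj (v k)) x = (∑ j, ‖v j‖ ^ 2) * ∑ j, ∑ k, ‖x j k‖ ^ 2 -
      2 * ∑ k, ‖∑ j, v j * conj (x j k)‖ ^ 2 := by
  simp only [qq, hq_rank, ofReal_re, mc, re_sum]

theorem cyc (f : Fin N → Fin N → Fin N → ℂ) :
    ∑ i, ∑ j, ∑ k, f j k i = ∑ i, ∑ j, ∑ k, f i j k := by
  rw [Finset.sum_comm]
  exact Finset.sum_congr rfl fun j _ => Finset.sum_comm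

theorem w3_sq (v : Fin N → ℂ) (x : Fin N → Fin N → ℂ) (hx : ∀ j k, x j k = -x k j) :
    ∑ i, ∑ j, ∑ k, ‖w3 v x i j k‖ ^ 2 = 3 * qq (fun j k => v j * conj (v k)) x := by
  set t : Fin N → Fin N → Fin N → ℂ := fun i j k => v i * x j k with ht
  set g : Fin N → Fin N → Fin N → ℂ := fun i j k =>
    t i j k * conj (t i j k) + t i j k * conj (t j k i) + t j k i * conj (t i j k) with hg
  have h1 : ∀ i j k, ((‖w3 v x i j k‖ ^ 2 : ℝ) : ℂ) = g i j k + g j k i + g k i j := by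
    intro i j k
    rw [← mc]
    simp only [hg, ht, w3, hx i k, map_add, map_sub, map_mul, map_neg]
    ring
  have hP : ∑ i, ∑ j, ∑ k, t i j k * conj (t i j k) =
      (((∑ j, ‖v j‖ ^ 2) * ∑ j, ∑ k, ‖x j k‖ ^ 2 : ℝ) : ℂ) := by
    rw [Finset.sum_mul]
    simp only [mc, ht, norm_mul, mul_pow, Finset.mul_sum, ofReal_sum]
  have hR : ∑ i, ∑ j, ∑ k, t i j k * conj (t j k i) =
      -((∑ k, ‖∑ j, v j * conj (x j k)‖ ^ 2 : ℝ) : ℂ) := by
    rw [← cyc, ofReal_sum, ← Finset.sum_neg_distrib]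
    refine Finset.sum_congr rfl fun k _ => ?_
    rw [← mc, map_sum, Finset.sum_mul_sum, ← Finset.sum_neg_distrib]
    refine Finset.sum_congr rfl fun i _ => ?_
    rw [← Finset.sum_neg_distrib]
    refine Finset.sum_congr rfl fun j _ => ?_
    simp only [ht, hx k i, map_mul, map_neg, conj_conj]
    ring
  have hR' : ∑ i, ∑ j, ∑ k, t j k i * conj (t i j k) =
      -((∑ k, ‖∑ j, v j * conj (x j k)‖ ^ 2 : ℝ) : ℂ) := by
    have := congrArg conj hR
    rw [map_neg, conj_ofReal] at this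
    rw [← this]
    simp only [map_sum, map_mul, conj_conj, mul_comm]
  have h2 : ∑ i, ∑ j, ∑ k, g i j k = (qq (fun j k => v j * conj (v k)) x : ℂ) := by
    simp only [hg, Finset.sum_add_distrib]
    rw [hP, hR, hR', qq_rank]
    push_cast
    ring
  apply ofReal_injective
  simp only [ofReal_sum, h1, Finset.sum_add_distrib]
  rw [cyc g, ← cyc fun i j k => g k i j]
  simp only [h2]
  push_cast
  ring

theorem qq_rank_nonneg (v : Fin N → ℂ) (x : Fin N → Fin N → ℂ) (hx : ∀ j k, x j k = -x k j) :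
    0 ≤ qq (fun j k => v j * conj (v k)) x := by
  have h := w3_sq v x hx
  have : 0 ≤ ∑ i, ∑ j, ∑ k, ‖w3 v x i j k‖ ^ 2 := by positivity
  linarith

open scoped ComplexOrder in
theorem qq_nonneg (A : Fin N → Fin N → ℂ) (hA : ∀ j k, conj (A j k) = A k j)
    (hp : ∀ L, 0 ≤ (hq A L).re) (x : Fin N → Fin N → ℂ) (hx : ∀ j k, x j k = -x k j) :
    0 ≤ qq A x := by
  have hH : (Matrix.of A).IsHermitian := by
    ext j k
    simpa using hA k j
  have hs : (Matrix.of A).PosSemidef := by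
    refine Matrix.PosSemidef.of_dotProduct_mulVec_nonneg hH fun y => ?_
    have e : star y ⬝ᵥ (Matrix.of A).mulVec y = hq A fun j => conj (y j) := by
      simp only [hq, dotProduct, Matrix.mulVec, Finset.mul_sum, Matrix.of_apply, Pi.star_apply,
        RCLike.star_def, conj_conj]
      exact Finset.sum_congr rfl fun j _ => Finset.sum_congr rfl fun k _ => by ring
    have e2 : conj (hq A fun j => conj (y j)) = hq A fun j => conj (y j) := by
      simp only [hq, map_sum, map_mul, conj_conj, hA]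
      rw [Finset.sum_comm]
      exact Finset.sum_congr rfl fun j _ => Finset.sum_congr rfl fun k _ => by ring
    rw [e]
    exact ⟨by simpa using hp _, by simpa using (conj_eq_iff_im.1 e2).symm⟩
  obtain ⟨m, v, hv⟩ := Matrix.posSemidef_iff_eq_sum_vecMulVec.1 hs
  have : A = fun j k => ∑ i, v i j * conj (v i k) := by
    funext j k
    have := congrFun (congrFun hv j) k
    simpa [Matrix.sum_apply, Matrix.vecMulVec_apply] using this
  rw [this, qq_sum Finset.univ fun i j k => v i j * conj (v i k)]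
  exact Finset.sum_nonneg fun i _ => qq_rank_nonneg _ _ hx

theorem qq_lower (A : Fin N → Fin N → ℂ) (hA : ∀ j k, conj (A j k) = A k j) (δ : ℝ)
    (hp : ∀ L : Fin N → ℂ, δ * ∑ j, ‖L j‖ ^ 2 ≤ (hq A L).re) (x : Fin N → Fin N → ℂ)
    (hx : ∀ j k, x j k = -x k j) :
    δ * ((N : ℝ) - 2) * ∑ j, ∑ k, ‖x j k‖ ^ 2 ≤ qq A x := by
  have h := qq_nonneg
    (fun j k => ((1 : ℝ) : ℂ) * A j k + ((-δ : ℝ) : ℂ) * if j = k then 1 else 0) ?_ ?_ x hx
  · rw [qq_lin, qq_one] at h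
    linarith
  · intro j k
    by_cases h : j = k
    · subst h; simp [hA]
    · simp [hA, h, Ne.symm h]
  · intro L
    rw [hq_lin, hq_one, add_re, re_ofReal_mul, re_ofReal_mul, ofReal_re]
    linarith [hp L]

/-! ### The complex Hessian -/

theorem ev_diff {F : Type} [NormedAddCommGroup F] [NormedSpace ℝ F] {G : Type}
    [NormedAddCommGroup G] [NormedSpace ℝ G] {f : F → G} {z : F} (hf : ContDiffAt ℝ ∞ f z) :
    ∀ᶠ y in 𝓝 z, DifferentiableAt ℝ f y :=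
  ((hf.of_le (m := 1) (by exact_mod_cast le_top)).eventually (by simp)).mono fun _ hy =>
    hy.differentiableAt (by simp)

theorem hess_herm {φ : E N → ℝ} {z : E N} (hφ : ContDiffAt ℝ ∞ φ z) (j k : Fin N) :
    conj (dz j (dzb k (cx φ)) z) = dz k (dzb j (cx φ)) z := by
  have : dzb k (cx φ) = fun w => conj (dz k (cx φ) w) := funext fun w => dzb_cx k φ w
  rw [this, dz_conj, conj_conj, dz_dzb_comm k j (contDiffAt_cx hφ)]

theorem hess_lin {φ ψ : E N → ℝ} {z : E N} (hφ : ContDiffAt ℝ ∞ φ z) (hψ : ContDiffAt ℝ ∞ ψ z)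
    (s t : ℝ) (j k : Fin N) : dz j (dzb k (cx fun y => s * φ y + t * ψ y)) z =
      s * dz j (dzb k (cx φ)) z + t * dz j (dzb k (cx ψ)) z := by
  have e : (cx fun y => s * φ y + t * ψ y) = fun y => (s : ℂ) * cx φ y + (t : ℂ) * cx ψ y := by
    funext y; simp [cx]
  have h1 : dzb k (cx fun y => s * φ y + t * ψ y) =ᶠ[𝓝 z]
      fun y => (s : ℂ) * dzb k (cx φ) y + (t : ℂ) * dzb k (cx ψ) y := by
    filter_upwards [ev_diff (contDiffAt_cx hφ), ev_diff (contDiffAt_cx hψ)] with y h1 h2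
    rw [e, dzb_add k (h1.const_mul _) (h2.const_mul _), dzb_const_mul k _ h1, dzb_const_mul k _ h2]
  have d1 := ContDiffAt.da (contDiffAt_dzb k (contDiffAt_cx hφ))
  have d2 := ContDiffAt.da (contDiffAt_dzb k (contDiffAt_cx hψ))
  rw [dz_congr h1, dz_add j (d1.const_mul _) (d2.const_mul _), dz_const_mul j _ d1,
    dz_const_mul j _ d2]

theorem hess_comp {φ : E N → ℝ} {z : E N} (hφ : ContDiffAt ℝ ∞ φ z) {χ : ℝ → ℝ}
    (hχ : ContDiffAt ℝ ∞ χ (φ z)) (j k : Fin N) : dz j (dzb k (cx fun y => χ (φ y))) z =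
      (deriv χ (φ z) : ℝ) * dz j (dzb k (cx φ)) z +
        (deriv (deriv χ) (φ z) : ℝ) * (dz j (cx φ) z * conj (dz k (cx φ) z)) := by
  have hd : ContDiffAt ℝ ∞ (deriv χ) (φ z) :=
    (hχ.fderiv_right (m := ∞) le_rfl).clm_apply contDiffAt_const
  have h1 : dzb k (cx fun y => χ (φ y)) =ᶠ[𝓝 z]
      fun y => (cx fun w => deriv χ (φ w)) y * dzb k (cx φ) y := by
    filter_upwards [ev_diff hφ, hφ.continuousAt.eventually (ev_diff hχ)] with y h1 h2
    exact dzb_comp_real k h1 h2.hasDerivAt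
  have d1 := ContDiffAt.da (contDiffAt_dzb k (contDiffAt_cx hφ))
  have d2 : DifferentiableAt ℝ (cx fun w => deriv χ (φ w)) z :=
    ContDiffAt.da (contDiffAt_cx (hd.comp z hφ))
  rw [dz_congr h1, dz_mul j d2 d1, dz_comp_real j (hφ.differentiableAt (by simp))
    (hd.differentiableAt (by simp)).hasDerivAt, dzb_cx]
  simp only [cx]
  ring

theorem hess_sq (z : E N) (j k : Fin N) :
    dz j (dzb k (cx fun y : E N => ‖y‖ ^ 2)) z = if j = k then 1 else 0 := by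
  have : dzb k (cx fun y : E N => ‖y‖ ^ 2) = fun w => w k := funext fun w => dzb_normSq k w
  rw [this, dz_coord]

theorem log_bound (z : E N) (hz : z ≠ 0) (x : Fin N → Fin N → ℂ) :
    ((N : ℝ) - 3) / ‖z‖ ^ 2 * ∑ j, ∑ k, ‖x j k‖ ^ 2 ≤ QQ (fun y => Real.log (‖y‖ ^ 2)) z x := by
  have hs : (0 : ℝ) < ‖z‖ ^ 2 := by positivity
  have hφ : ContDiffAt ℝ ∞ (fun y : E N => ‖y‖ ^ 2) z := (contDiff_norm_sq ℂ).contDiffAt
  have hχ : ContDiffAt ℝ ∞ Real.log (‖z‖ ^ 2) := Real.contDiffAt_log.2 hs.ne'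
  have h := hess_comp hφ hχ
  have hd : deriv Real.log = fun s => s⁻¹ := Real.deriv_log'
  have hn : ∑ j, ‖conj (z j)‖ ^ 2 = ‖z‖ ^ 2 := by
    simp [EuclideanSpace.norm_sq_eq]
  simp only [hess_sq, dz_normSq, hd, deriv_inv] at h
  rw [QQ_eq, funext₂ h, qq_lin, qq_one, qq_rank, hn]
  set T := ∑ j, ∑ k, ‖x j k‖ ^ 2
  set S := ∑ k, ‖∑ j, conj (z j) * conj (x j k)‖ ^ 2 with hS
  have hS0 : 0 ≤ S := by positivity
  set s := ‖z‖ ^ 2
  have : s⁻¹ * (((N : ℝ) - 2) * T) + -(s ^ 2)⁻¹ * (s * T - 2 * S) =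
      ((N : ℝ) - 3) / s * T + 2 * S / s ^ 2 := by
    field_simp
    ring
  rw [this]
  have : 0 ≤ 2 * S / s ^ 2 := by positivity
  linarith

theorem grad_bound (r : E N → ℝ) (z : E N) (hr : DifferentiableAt ℝ r z) :
    ∑ j, ‖dz j (cx r) z‖ ^ 2 ≤ ‖fderiv ℝ r z‖ ^ 2 := by
  set v : E N := WithLp.toLp 2 fun j => conj (dz j (cx r) z) with hv
  have hn : ‖v‖ ^ 2 = ∑ j, ‖dz j (cx r) z‖ ^ 2 := by
    simp [EuclideanSpace.norm_sq_eq, hv]
  have h1 : fderiv ℝ (cx r) z v = (fderiv ℝ r z v : ℝ) :=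
    congrArg (fun A : E N →L[ℝ] ℂ => A v) (ofRealCLM.hasFDerivAt.comp z hr.hasFDerivAt).fderiv
  have h2 : fderiv ℝ r z v = 2 * ‖v‖ ^ 2 := by
    apply ofReal_injective
    rw [← h1, fderiv_eq, hn]
    push_cast
    rw [Finset.mul_sum]
    refine Finset.sum_congr rfl fun j _ => ?_
    have := mc (dz j (cx r) z)
    push_cast at this
    simp only [hv, dzb_cx, conj_conj, ← this]
    ring
  have h3 := (fderiv ℝ r z).le_opNorm v
  rw [h2, Real.norm_of_nonneg (by positivity)] at h3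
  rw [← hn]
  have h4 := norm_nonneg v
  have h5 := norm_nonneg (fderiv ℝ r z)
  have h6 : ‖v‖ ≤ ‖fderiv ℝ r z‖ := by
    by_contra hc
    push Not at hc
    nlinarith
  gcongr

theorem w3_bound (γ : Fin N → ℂ) (x : Fin N → Fin N → ℂ) :
    ∑ i, ∑ j, ∑ k, ‖w3 γ x i j k‖ ^ 2 ≤ 9 * (∑ i, ‖γ i‖ ^ 2) * ∑ j, ∑ k, ‖x j k‖ ^ 2 := by
  have h : ∀ i j k, ‖w3 γ x i j k‖ ^ 2 ≤ 3 * (‖γ i‖ ^ 2 * ‖x j k‖ ^ 2) +
      3 * (‖γ j‖ ^ 2 * ‖x i k‖ ^ 2) + 3 * (‖γ k‖ ^ 2 * ‖x i j‖ ^ 2) := by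
    intro i j k
    have h1 : ‖w3 γ x i j k‖ ≤ ‖γ i‖ * ‖x j k‖ + ‖γ j‖ * ‖x i k‖ + ‖γ k‖ * ‖x i j‖ := by
      simp only [← norm_mul]
      exact (norm_add_le _ _).trans (add_le_add_left (norm_sub_le _ _) _)
    simp only [← mul_pow]
    set a := ‖γ i‖ * ‖x j k‖
    set b := ‖γ j‖ * ‖x i k‖
    set c := ‖γ k‖ * ‖x i j‖
    have h2 : ‖w3 γ x i j k‖ ^ 2 ≤ (a + b + c) ^ 2 := by gcongr
    nlinarith [sq_nonneg (a - b), sq_nonneg (b - c), sq_nonneg (a - c)]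
  refine (Finset.sum_le_sum fun i _ => Finset.sum_le_sum fun j _ => Finset.sum_le_sum
    fun k _ => h i j k).trans (le_of_eq ?_)
  have e1 : ∑ i, ∑ j, ∑ k, ‖γ i‖ ^ 2 * ‖x j k‖ ^ 2 =
      (∑ i, ‖γ i‖ ^ 2) * ∑ j, ∑ k, ‖x j k‖ ^ 2 := by
    rw [Finset.sum_mul]
    simp only [Finset.mul_sum]
  have e2 : ∑ i, ∑ j, ∑ k, ‖γ j‖ ^ 2 * ‖x i k‖ ^ 2 =
      (∑ i, ‖γ i‖ ^ 2) * ∑ j, ∑ k, ‖x j k‖ ^ 2 := by
    rw [Finset.sum_comm, e1]
  have e3 : ∑ i, ∑ j, ∑ k, ‖γ k‖ ^ 2 * ‖x i j‖ ^ 2 =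
      (∑ i, ‖γ i‖ ^ 2) * ∑ j, ∑ k, ‖x j k‖ ^ 2 := by
    simp only [← Finset.sum_mul, ← Finset.mul_sum]
  simp only [Finset.sum_add_distrib, ← Finset.mul_sum] at e1 e2 e3 ⊢
  rw [e1, e2, e3]
  ring

theorem qa (_L : Lv0) : StmtQA := by
  intro N z
  refine ⟨fun φ hφ => ⟨fun δ hp x hx => ?_, fun ψ hψ s t => ⟨fun x => ?_, fun L => ?_⟩,
    fun χ hχ L => ?_⟩, fun L => ?_, fun hz x _ => log_bound z hz x, fun r hr => grad_bound r z hr,
    w3_bound⟩
  · exact qq_lower _ (hess_herm hφ) δ hp x hx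
  · rw [QQ_eq, funext₂ (hess_lin hφ hψ s t), qq_lin]; rfl
  · rw [hess_eq, funext₂ (hess_lin hφ hψ s t), hq_lin]; rfl
  · rw [hess_eq, funext₂ (hess_comp hφ hχ), hq_lin, hq_rank, add_re, re_ofReal_mul, re_ofReal_mul,
      ofReal_re]; rfl
  · rw [hess_eq, funext₂ (hess_sq z), hq_one]

end

end Pool.Agent.MP_fcd29e_an.H94
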